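import Pool.Agent.Lib.helper4.Hrush3

namespace Pool.Agent.Results.MP_c0ccbe_al.Steiner

open Finset Pool.Agent.H4Hrush
open scoped Pointwise

def up (T : Finset ℕ) : Finset U := T.image fun n => (n, false)

theorem up_inj : Function.Injective fun n : ℕ => ((n, false) : U) := fun _ _ h => congrArg Prod.fst h

theorem up_card (T : Finset ℕ) : (up T).card = T.card := card_image_of_injective _ up_inj

theorem up_nc (T : Finset ℕ) : nc (up T) = 0 := by
  unfold nc
  rw [card_eq_zero, filter_eq_empty_iff]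
  intro x hx
  obtain ⟨j, _, rfl⟩ := mem_image.1 hx
  simp

theorem not_up (T : Finset ℕ) (c : ℕ) : (c, true) ∉ up T := by simp [up]

theorem colouring : ∃ col : Finset ℕ → ℕ,
    (∀ T T' : Finset ℕ, T.card = 3 → T'.card = 3 → col T = col T' → 2 ≤ (T ∩ T').card → T = T') ∧
    (∀ (x y c : ℕ), x ≠ y → ∃ T : Finset ℕ, T.card = 3 ∧ x ∈ T ∧ y ∈ T ∧ col T = c) ∧
    ∀ a b : Fin 4 → ℕ, Function.Injective a → Function.Injective b →
      ∃ π σ : Equiv.Perm ℕ, (∀ j, π (a j) = b j) ∧
        ∀ T : Finset ℕ, T.card = 3 → col (T.image π) = σ (col T) := by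
  obtain ⟨L, h1, h2, h3, h4⟩ := limit
  have ex : ∀ T : Finset ℕ, ∃ c : ℕ, T.card = 3 → insert (c, true) (up T) ∈ L := by
    intro T
    by_cases hT : T.card = 3
    · obtain ⟨d, hd, hL⟩ := h3 (up T) (by rw [up_card, hT]) (by rw [up_nc]; omega)
      have := (h1 _ hL).2
      rw [nc_insert hd, up_nc] at this
      obtain ⟨c, b⟩ := d
      cases b
      · simp at this
      · exact ⟨c, fun _ => hL⟩
    · exact ⟨0, fun a => absurd a hT⟩
  choose col hcol using ex
  have uniq : ∀ (T : Finset ℕ) (c : ℕ), T.card = 3 → insert (c, true) (up T) ∈ L → col T = c := by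
    intro T c hT hc
    by_contra hne
    have a1 : insert (col T, true) (up T) ≠ insert (c, true) (up T) := by
      intro e
      have : (col T, true) ∈ insert (c, true) (up T) := e ▸ mem_insert_self _ _
      rcases mem_insert.1 this with a | a
      · exact hne (congrArg Prod.fst a)
      · exact not_up _ _ a
    have a2 := h2 _ (hcol T hT) _ hc a1
    have a3 : up T ⊆ insert (col T, true) (up T) ∩ insert (c, true) (up T) :=
      subset_inter (subset_insert _ _) (subset_insert _ _)
    have := card_le_card a3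
    rw [up_card] at this
    omega
  refine ⟨col, ?_, ?_, ?_⟩
  · intro T T' hT hT' hc hi
    by_contra hne
    have a1 : insert (col T, true) (up T) ≠ insert (col T', true) (up T') := by
      intro e
      rw [hc] at e
      have := congrArg (fun s => s.erase (col T', true)) e
      simp only [erase_insert (not_up _ _)] at this
      exact hne (image_injective up_inj this)
    have a2 := h2 _ (hcol T hT) _ (hcol T' hT') a1
    have a3 : insert (col T, true) (up (T ∩ T')) ⊆
        insert (col T, true) (up T) ∩ insert (col T', true) (up T') := by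
      rw [← hc]
      exact subset_inter (insert_subset_insert _ (image_subset_image inter_subset_left))
        (insert_subset_insert _ (image_subset_image inter_subset_right))
    have := card_le_card a3
    rw [card_insert_of_notMem (not_up _ _), up_card] at this
    omega
  · intro x y c hxy
    have b1 : (insert (c, true) (up {x, y})).card = 3 := by
      rw [card_insert_of_notMem (not_up _ _), up_card, card_pair hxy]
    have b2 : nc (insert (c, true) (up {x, y})) = 1 := by
      rw [nc_insert (not_up _ _), up_nc]; simp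
    obtain ⟨d, hd, hL⟩ := h3 _ b1 b2.le
    have := (h1 _ hL).2
    rw [nc_insert hd, b2] at this
    obtain ⟨z, b⟩ := d
    cases b
    swap
    · simp at this
    have e : insert (z, false) (insert (c, true) (up {x, y})) = insert (c, true) (up {z, x, y}) := by
      rw [insert_comm]; simp [up]
    rw [e] at hL
    have b3 : ({z, x, y} : Finset ℕ).card = 3 := by
      have := (h1 _ hL).1
      rw [card_insert_of_notMem (not_up _ _), up_card] at this
      omega
    exact ⟨{z, x, y}, b3, by simp, by simp, uniq _ _ b3 hL⟩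
  · intro a b ha hb
    obtain ⟨f, hs, hv, he⟩ := h4 a b ha hb
    have key : ∀ t : Bool, ∃ π : Equiv.Perm ℕ, ∀ n, f (n, t) = (π n, t) := by
      intro t
      have k1 : ∀ n, f (n, t) = ((f (n, t)).1, t) := fun n => Prod.ext rfl (hs _)
      have k2 : ∀ n, f⁻¹ (n, t) = ((f⁻¹ (n, t)).1, t) := fun n => Prod.ext rfl (hs.inv _)
      refine ⟨⟨fun n => (f (n, t)).1, fun n => (f⁻¹ (n, t)).1, fun n => ?_, fun n => ?_⟩, k1⟩
      · simp only; rw [← k1]; simp
      · simp only; rw [← k2]; simp
    obtain ⟨π, hπ⟩ := key false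
    obtain ⟨σ, hσ⟩ := key true
    refine ⟨π, σ, fun j => ?_, fun T hT => ?_⟩
    · have := hv j
      rw [hπ] at this
      exact congrArg Prod.fst this
    · apply uniq _ _ (by rw [card_image_of_injective _ π.injective, hT])
      have := (he _).2 (hcol T hT)
      rw [image_insert, hσ] at this
      convert this using 2
      unfold up
      rw [image_image, image_image]
      congr 1
      funext n
      exact (hπ n).symm

/-- permutations preserving the relation of having the same colour -/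
def grp (col : Finset ℕ → ℕ) : Subgroup (Equiv.Perm ℕ) where
  carrier := {π | ∀ T T' : Set.powersetCard ℕ 3, col (π • T).1 = col (π • T').1 ↔ col T.1 = col T'.1}
  one_mem' := by simp
  mul_mem' := fun {a b} ha hb T T' => by
    rw [mul_smul, mul_smul]; exact (ha _ _).trans (hb _ _)
  inv_mem' := fun {a} ha T T' => by
    have := ha (a⁻¹ • T) (a⁻¹ • T')
    rw [smul_inv_smul, smul_inv_smul] at this
    exact this.symm

theorem result : ∃ (G : Subgroup (Equiv.Perm ℕ)) (S : Set (Set.powersetCard ℕ 3)),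
    MulAction.IsMultiplyPretransitive G ℕ 4 ∧
    ¬ MulAction.IsPreprimitive G (Set.powersetCard ℕ 3) ∧
    MulAction.IsBlock G S ∧ S.Nontrivial ∧ S ≠ Set.univ ∧
    (∀ x y : ℕ, x ≠ y → ∃! T : Set.powersetCard ℕ 3, T ∈ S ∧ x ∈ T.1 ∧ y ∈ T.1) ∧
    ¬ (∀ x : ℕ, ∃! T : Set.powersetCard ℕ 3, T ∈ S ∧ x ∈ T.1) := by
  obtain ⟨col, h1, h2, h3⟩ := colouring
  have hS : ∀ x y : ℕ, x ≠ y → ∃! T : Set.powersetCard ℕ 3,
      T ∈ {T : Set.powersetCard ℕ 3 | col T.1 = 0} ∧ x ∈ T.1 ∧ y ∈ T.1 := by
    intro x y hxy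
    obtain ⟨T, a, b, c, d⟩ := h2 x y 0 hxy
    refine ⟨⟨T, a⟩, ⟨d, b, c⟩, ?_⟩
    rintro ⟨T', a'⟩ ⟨d', b', c'⟩
    apply Subtype.ext
    apply h1 T' T a' a (d'.trans d.symm)
    rw [← card_pair hxy]
    apply card_le_card
    intro z hz
    simp only [mem_insert, mem_singleton] at hz
    rcases hz with rfl | rfl
    · exact mem_inter.2 ⟨b', b⟩
    · exact mem_inter.2 ⟨c', c⟩
  have hnp : ∃ T ∈ {T : Set.powersetCard ℕ 3 | col T.1 = 0},
      ∃ T' ∈ {T : Set.powersetCard ℕ 3 | col T.1 = 0}, T ≠ T' ∧ 0 ∈ T.1 ∧ 0 ∈ T'.1 := by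
    obtain ⟨T, ⟨a, b, -⟩, -⟩ := hS 0 1 (by omega)
    obtain ⟨y, hy⟩ := Infinite.exists_notMem_finset T.1
    obtain ⟨T', ⟨a', b', c'⟩, -⟩ := hS 0 y (fun e => hy (e ▸ b))
    exact ⟨T, a, T', a', fun e => hy (e ▸ c'), b, b'⟩
  have hB : MulAction.IsBlock (grp col) {T : Set.powersetCard ℕ 3 | col T.1 = 0} := by
    rw [MulAction.isBlock_iff_smul_eq_of_mem]
    intro g T hT hgT
    ext T'
    rw [Set.mem_smul_set_iff_inv_smul_mem]
    have := g.2 (g⁻¹ • T') T
    have e : (g.1 • (g⁻¹ • T') : Set.powersetCard ℕ 3) = T' := smul_inv_smul g T'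
    rw [e] at this
    have hT' : col T.1 = 0 := hT
    have hgT' : col (g.1 • T : Set.powersetCard ℕ 3).1 = 0 := hgT
    rw [hT', hgT'] at this
    exact this.symm
  have hN : {T : Set.powersetCard ℕ 3 | col T.1 = 0}.Nontrivial := by
    obtain ⟨T, a, T', b, c, -⟩ := hnp
    exact ⟨T, a, T', b, c⟩
  have hU : {T : Set.powersetCard ℕ 3 | col T.1 = 0} ≠ Set.univ := by
    intro e
    obtain ⟨T, a, -, -, d⟩ := h2 0 1 1 (by omega)
    have : (⟨T, a⟩ : Set.powersetCard ℕ 3) ∈ {T : Set.powersetCard ℕ 3 | col T.1 = 0} :=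
      e ▸ Set.mem_univ _
    have : col T = 0 := this
    omega
  refine ⟨grp col, _, ?_, ?_, hB, hN, hU, hS, ?_⟩
  · rw [MulAction.isMultiplyPretransitive_iff]
    intro a b
    obtain ⟨π, σ, p1, p2⟩ := h3 a b a.injective b.injective
    refine ⟨⟨π, fun T T' => ?_⟩, ?_⟩
    · have e : ∀ T : Set.powersetCard ℕ 3, (π • T).1 = T.1.image π := fun T => rfl
      rw [e, e, p2 _ T.2, p2 _ T'.2]
      exact σ.injective.eq_iff
    · ext j
      exact p1 j
  · intro hp
    rcases hp.isTrivialBlock_of_isBlock hB with h | h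
    · exact hN.not_subsingleton h
    · exact hU h
  · intro h
    obtain ⟨T, a, T', b, c, d, e⟩ := hnp
    exact c ((h 0).unique ⟨a, d⟩ ⟨b, e⟩)

end Pool.Agent.Results.MP_c0ccbe_al.Steiner
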